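import Mathlib

set_option autoImplicit false
open Set Filter Topology

namespace Pool.Agent.Results.MP_ae49d3_an.NoMatrixMethod

/-- The n-th Fourier coefficient of f with respect to the orthogonal system φ on [0,1]:
the integral of f * φ n divided by the integral of φ n squared. -/
noncomputable def coeff (φ : ℕ → ℝ → ℝ) (f : ℝ → ℝ) (n : ℕ) : ℝ :=
  (∫ t in (0:ℝ)..1, f t * φ n t) / (∫ t in (0:ℝ)..1, φ n t ^ 2)

/-- The partial sum of the expansion of f, using the first N + 1 functions φ 0, ..., φ N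
(so that N = 0, 1, 2, ... runs over all nonempty partial sums). -/
noncomputable def partialSum (φ : ℕ → ℝ → ℝ) (f : ℝ → ℝ) (N : ℕ) (t : ℝ) : ℝ :=
  ∑ n ∈ Finset.range (N + 1), coeff φ f n * φ n t

/-- The expansion of f in the system φ is uniformly summable to f on [0,1] by the linear
summation method given by the real matrix c: for each row m the series over N of
c m N * (N-th partial sum) converges uniformly on [0,1] to a function σ m, and σ m tends to f
uniformly on [0,1] as m tends to infinity. -/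
def UniformlySummable (φ : ℕ → ℝ → ℝ) (c : ℕ → ℕ → ℝ) (f : ℝ → ℝ) : Prop :=
  ∃ σ : ℕ → ℝ → ℝ,
    (∀ m, TendstoUniformlyOn
      (fun (K : ℕ) (t : ℝ) => ∑ N ∈ Finset.range K, c m N * partialSum φ f N t)
      (σ m) atTop (Icc (0:ℝ) 1)) ∧
    TendstoUniformlyOn σ f atTop (Icc (0:ℝ) 1)


/-- cosine functions on the unit interval as continuous maps -/
noncomputable def e (m : ℤ) : C(Icc (0:ℝ) 1, ℝ) :=
  ⟨fun t => Real.cos ((m:ℝ) * Real.pi * (t:ℝ)), by fun_prop⟩

lemma e_apply (m : ℤ) (t : Icc (0:ℝ) 1) : e m t = Real.cos ((m:ℝ) * Real.pi * (t:ℝ)) := rfl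

lemma e_neg (m : ℤ) : e (-m) = e m := by
  ext t
  simp only [e_apply]
  rw [← Real.cos_neg]
  congr 1
  push_cast
  ring

lemma e_zero : e 0 = 1 := by
  ext t
  simp [e_apply]

lemma e_mul (m n : ℤ) : e m * e n = (1/2 : ℝ) • e (m + n) + (1/2 : ℝ) • e (m - n) := by
  ext t
  simp only [e_apply, ContinuousMap.mul_apply, ContinuousMap.add_apply, ContinuousMap.smul_apply,
    smul_eq_mul]
  have h1 : ((m + n : ℤ) : ℝ) * Real.pi * (t:ℝ) = (m:ℝ) * Real.pi * t + (n:ℝ) * Real.pi * t := by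
    push_cast; ring
  have h2 : ((m - n : ℤ) : ℝ) * Real.pi * (t:ℝ) = (m:ℝ) * Real.pi * t - (n:ℝ) * Real.pi * t := by
    push_cast; ring
  rw [h1, h2, Real.cos_add, Real.cos_sub]
  ring

/-- frequencies that are not plus or minus a power of three -/
def good (m : ℤ) : Prop := ∀ k : ℕ, m ≠ 3 ^ k ∧ m ≠ -3 ^ k

def Kset (j : ℕ) : Set C(Icc (0:ℝ) 1, ℝ) := {g | ∃ m : ℤ, (3:ℤ) ^ j ∣ m ∧ m ≠ 0 ∧ g = e m}
def Mset (j : ℕ) : Set C(Icc (0:ℝ) 1, ℝ) := {g | ∃ m : ℤ, (3:ℤ) ^ j ∣ m ∧ m ≠ 0 ∧ good m ∧ g = e m}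
def K (j : ℕ) : Submodule ℝ C(Icc (0:ℝ) 1, ℝ) := Submodule.span ℝ (Kset j)
def M (j : ℕ) : Submodule ℝ C(Icc (0:ℝ) 1, ℝ) := Submodule.span ℝ (Mset j)

noncomputable def u (k : ℕ) : C(Icc (0:ℝ) 1, ℝ) := e (3 ^ k)

lemma M_le_K (j : ℕ) : M j ≤ K j := by
  apply Submodule.span_mono
  rintro g ⟨m, h1, h2, h3, rfl⟩
  exact ⟨m, h1, h2, rfl⟩

lemma M_succ_le (j : ℕ) : M (j+1) ≤ M j := by
  apply Submodule.span_mono
  rintro g ⟨m, h1, h2, h3, rfl⟩
  exact ⟨m, dvd_trans (pow_dvd_pow 3 (Nat.le_succ j)) h1, h2, h3, rfl⟩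

lemma u_mem_K (j k : ℕ) (h : j ≤ k) : u k ∈ K j := by
  apply Submodule.subset_span
  exact ⟨3 ^ k, pow_dvd_pow 3 h, by positivity, rfl⟩

/-- key arithmetic: 3^j * (3 q + s) with s = 1 or -1, q nonzero, is a good nonzero frequency -/
lemma good_of (j : ℕ) (q s : ℤ) (hq : q ≠ 0) (hs : s = 1 ∨ s = -1) :
    good (3 ^ j * (3 * q + s)) ∧ (3:ℤ) ^ j * (3 * q + s) ≠ 0 := by
  have h3 : (3:ℤ) ^ j ≠ 0 := by positivity
  have key : ∀ k : ℕ, ∀ σ : ℤ, (σ = 1 ∨ σ = -1) → (3:ℤ) ^ j * (3 * q + s) ≠ σ * 3 ^ k := by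
    intro k σ hσ h
    rcases lt_trichotomy k j with hk | hk | hk
    · obtain ⟨d, rfl⟩ := Nat.exists_eq_add_of_lt hk
      have : (3:ℤ) ^ (k + d + 1) * (3 * q + s) = 3 ^ k * (3 * (3 ^ d * (3 * q + s))) := by ring
      rw [this] at h
      have h3k : (3:ℤ) ^ k ≠ 0 := by positivity
      have h' : 3 * (3 ^ d * (3 * q + s)) = σ := by
        apply mul_left_cancel₀ h3k
        rw [h]; ring
      rcases hσ with rfl | rfl <;> omega
    · subst hk
      have h' : 3 * q + s = σ := by
        apply mul_left_cancel₀ h3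
        rw [h]; ring
      rcases hσ with rfl | rfl <;> rcases hs with rfl | rfl <;> omega
    · obtain ⟨d, rfl⟩ := Nat.exists_eq_add_of_lt hk
      have h' : 3 * q + s = σ * (3 * 3 ^ d) := by
        apply mul_left_cancel₀ h3
        rw [h]; ring
      rcases hσ with rfl | rfl <;> rcases hs with rfl | rfl <;> omega
  refine ⟨fun k => ⟨?_, ?_⟩, ?_⟩
  · have := key k 1 (Or.inl rfl)
    simpa using this
  · have := key k (-1) (Or.inr rfl)
    simpa using this
  · apply mul_ne_zero h3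
    rcases hs with rfl | rfl <;> omega

lemma u_mul_K (j : ℕ) (g : C(Icc (0:ℝ) 1, ℝ)) (hg : g ∈ K (j+1)) : u j * g ∈ M j := by
  unfold K at hg
  induction hg using Submodule.span_induction with
  | mem x hx =>
    obtain ⟨m, ⟨q, rfl⟩, h2, rfl⟩ := hx
    have hq : q ≠ 0 := by
      rintro rfl
      simp at h2
    unfold u
    rw [e_mul]
    have h1 : (3:ℤ) ^ j + 3 ^ (j+1) * q = 3 ^ j * (3 * q + 1) := by ring
    have h2 : (3:ℤ) ^ j - 3 ^ (j+1) * q = 3 ^ j * (3 * (-q) + 1) := by ring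
    rw [h1, h2]
    apply Submodule.add_mem
    · apply Submodule.smul_mem
      apply Submodule.subset_span
      obtain ⟨ha, hb⟩ := good_of j q 1 hq (Or.inl rfl)
      exact ⟨_, dvd_mul_right _ _, hb, ha, rfl⟩
    · apply Submodule.smul_mem
      apply Submodule.subset_span
      obtain ⟨ha, hb⟩ := good_of j (-q) 1 (neg_ne_zero.mpr hq) (Or.inl rfl)
      exact ⟨_, dvd_mul_right _ _, hb, ha, rfl⟩
  | zero => simp
  | add x y _ _ hx hy => rw [mul_add]; exact Submodule.add_mem _ hx hy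
  | smul a x _ hx =>
    rw [mul_smul_comm]
    exact Submodule.smul_mem _ _ hx

/-- Riesz product -/
lemma riesz (n : ℕ) (a : ℝ) : ∀ i j : ℕ, j + i = n + 1 →
    ∃ X Y : C(Icc (0:ℝ) 1, ℝ), X - 1 ∈ M j ∧
      Y - a • ∑ k ∈ Finset.Ico j (n+1), u k ∈ M j ∧
      ∀ t, X t ^ 2 + Y t ^ 2 ≤ (1 + a ^ 2) ^ i := by
  intro i
  induction i with
  | zero =>
    intro j hj
    refine ⟨1, 0, by simp, ?_, by simp⟩
    have : j = n + 1 := by omega
    subst this
    simp
  | succ i ih =>
    intro j hj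
    obtain ⟨X, Y, hX, hY, hb⟩ := ih (j+1) (by omega)
    have hYK : Y ∈ K (j+1) := by
      have h1 := M_le_K _ hY
      have h2 : a • ∑ k ∈ Finset.Ico (j+1) (n+1), u k ∈ K (j+1) := by
        apply Submodule.smul_mem
        apply Submodule.sum_mem
        intro k hk
        rw [Finset.mem_Ico] at hk
        exact u_mem_K _ _ hk.1
      have := Submodule.add_mem _ h1 h2
      simpa using this
    refine ⟨X - a • (u j * Y), Y + a • (u j * X), ?_, ?_, ?_⟩
    · have : X - a • (u j * Y) - 1 = (X - 1) - a • (u j * Y) := by abel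
      rw [this]
      exact Submodule.sub_mem _ (M_succ_le _ hX) (Submodule.smul_mem _ _ (u_mul_K _ _ hYK))
    · have hsum : ∑ k ∈ Finset.Ico j (n+1), u k = u j + ∑ k ∈ Finset.Ico (j+1) (n+1), u k := by
        rw [Finset.sum_eq_sum_Ico_succ_bot (by omega)]
      have : Y + a • (u j * X) - a • ∑ k ∈ Finset.Ico j (n+1), u k
          = (Y - a • ∑ k ∈ Finset.Ico (j+1) (n+1), u k) + a • (u j * (X - 1)) := by
        rw [hsum, mul_sub, smul_add, smul_sub]
        simp only [mul_one]
        abel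
      rw [this]
      exact Submodule.add_mem _ (M_succ_le _ hY)
        (Submodule.smul_mem _ _ (u_mul_K _ _ (M_le_K _ hX)))
    · intro t
      have h := hb t
      have hu : (u j t) ^ 2 ≤ 1 := by
        unfold u
        rw [e_apply, sq_le_one_iff_abs_le_one]
        exact Real.abs_cos_le_one _
      simp only [ContinuousMap.sub_apply, ContinuousMap.add_apply, ContinuousMap.smul_apply,
        ContinuousMap.mul_apply, smul_eq_mul]
      calc (X t - a * (u j t * Y t)) ^ 2 + (Y t + a * (u j t * X t)) ^ 2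
          = (X t ^ 2 + Y t ^ 2) * (1 + a ^ 2 * (u j t) ^ 2) := by ring
        _ ≤ (1 + a ^ 2) ^ i * (1 + a ^ 2) := by
            apply mul_le_mul h _ (by positivity) (by positivity)
            nlinarith [sq_nonneg a]
        _ = (1 + a ^ 2) ^ (i + 1) := by ring

/-- value-level system -/
noncomputable def psi (k : ℕ) (t : ℝ) : ℝ :=
  (∑ j ∈ Finset.range k, Real.cos (3 ^ j * Real.pi * t)) - k * Real.cos (3 ^ k * Real.pi * t)

open Classical in
noncomputable def phi (n : ℕ) (t : ℝ) : ℝ :=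
  if 3 ^ (Nat.log 3 n) = n then psi (Nat.log 3 n + 1) t else Real.cos (n * Real.pi * t)

lemma phi_pow (k : ℕ) : phi (3 ^ k) = psi (k+1) := by
  funext t
  unfold phi
  rw [Nat.log_pow (by norm_num)]
  simp

lemma phi_of_not (n : ℕ) (h : ∀ k, n ≠ 3 ^ k) (t : ℝ) : phi n t = Real.cos (n * Real.pi * t) := by
  unfold phi
  rw [if_neg]
  intro h'
  exact h _ h'.symm

lemma cases_n (n : ℕ) : (∃ k, n = 3 ^ k) ∨ (∀ k, n ≠ 3 ^ k) := by
  by_cases h : ∃ k, n = 3 ^ k
  · exact Or.inl h
  · right; push Not at h; exact h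

lemma psi_cont (k : ℕ) : Continuous (psi k) := by
  unfold psi
  fun_prop

lemma phi_cont (n : ℕ) : Continuous (phi n) := by
  rcases cases_n n with ⟨k, rfl⟩ | h
  · rw [phi_pow]; exact psi_cont _
  · have : phi n = fun t => Real.cos (n * Real.pi * t) := by
      funext t; exact phi_of_not n h t
    rw [this]; fun_prop

lemma psi_zero (k : ℕ) : psi k 0 = 0 := by
  simp [psi]

/-- the integral of a product of two cosines -/
lemma int_cos (m : ℤ) (hm : m ≠ 0) : ∫ t in (0:ℝ)..1, Real.cos ((m:ℝ) * Real.pi * t) = 0 := by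
  have h1 : (m:ℝ) * Real.pi ≠ 0 := by
    have : (m:ℝ) ≠ 0 := by exact_mod_cast hm
    positivity
  rw [intervalIntegral.integral_comp_mul_left (fun x => Real.cos x) h1]
  simp only [mul_zero, mul_one, integral_cos, Real.sin_zero, sub_zero, smul_eq_mul]
  rw [Real.sin_int_mul_pi]
  simp

lemma int_cos_cos (m n : ℕ) (h : m ≠ n) :
    ∫ t in (0:ℝ)..1, Real.cos (m * Real.pi * t) * Real.cos (n * Real.pi * t) = 0 := by
  have h1 : ∀ t : ℝ, Real.cos (m * Real.pi * t) * Real.cos (n * Real.pi * t) =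
      (1/2) * Real.cos ((((m:ℤ) + (n:ℤ) : ℤ) : ℝ) * Real.pi * t) +
      (1/2) * Real.cos ((((m:ℤ) - (n:ℤ) : ℤ) : ℝ) * Real.pi * t) := by
    intro t
    have e1 : (((m:ℤ) + (n:ℤ) : ℤ) : ℝ) * Real.pi * t = (m * Real.pi * t) + (n * Real.pi * t) := by
      push_cast; ring
    have e2 : (((m:ℤ) - (n:ℤ) : ℤ) : ℝ) * Real.pi * t = (m * Real.pi * t) - (n * Real.pi * t) := by
      push_cast; ring
    rw [e1, e2, Real.cos_add, Real.cos_sub]
    ring
  simp_rw [h1]
  rw [intervalIntegral.integral_add, intervalIntegral.integral_const_mul,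
    intervalIntegral.integral_const_mul, int_cos _ (by omega), int_cos _ (by omega)]
  · simp
  · apply Continuous.intervalIntegrable; fun_prop
  · apply Continuous.intervalIntegrable; fun_prop

lemma int_cos_sq (m : ℕ) (h : m ≠ 0) :
    ∫ t in (0:ℝ)..1, Real.cos (m * Real.pi * t) * Real.cos (m * Real.pi * t) = 1/2 := by
  have h1 : ∀ t : ℝ, Real.cos (m * Real.pi * t) * Real.cos (m * Real.pi * t) =
      (1/2) * Real.cos ((((m:ℤ) + (m:ℤ) : ℤ) : ℝ) * Real.pi * t) + (1/2) := by
    intro t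
    have e1 : (((m:ℤ) + (m:ℤ) : ℤ) : ℝ) * Real.pi * t = (m * Real.pi * t) + (m * Real.pi * t) := by
      push_cast; ring
    rw [e1, Real.cos_add]
    have := Real.sin_sq_add_cos_sq (m * Real.pi * t)
    nlinarith
  simp_rw [h1]
  rw [intervalIntegral.integral_add, intervalIntegral.integral_const_mul, int_cos _ (by omega)]
  · simp
  · apply Continuous.intervalIntegrable; fun_prop
  · apply Continuous.intervalIntegrable; fun_prop

/-- pairing against cos -/
noncomputable def v (k : ℕ) (t : ℝ) : ℝ := Real.cos (3 ^ k * Real.pi * t)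

lemma v_cont (k : ℕ) : Continuous (v k) := by unfold v; fun_prop

lemma int_v_v (j k : ℕ) : ∫ t in (0:ℝ)..1, v j t * v k t = if j = k then 1/2 else 0 := by
  have hv : ∀ k : ℕ, ∀ t, v k t = Real.cos (((3 ^ k : ℕ) : ℝ) * Real.pi * t) := by
    intro k t; unfold v; push_cast; rfl
  simp_rw [hv]
  split_ifs with h
  · subst h
    exact int_cos_sq _ (by positivity)
  · apply int_cos_cos
    intro h'
    exact h (Nat.pow_right_injective (le_refl 2 |>.trans (by norm_num)) h')

lemma int_g_psi (g : ℝ → ℝ) (hg : Continuous g) (k : ℕ) :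
    ∫ t in (0:ℝ)..1, g t * psi k t =
      (∑ j ∈ Finset.range k, ∫ t in (0:ℝ)..1, g t * v j t) - k * ∫ t in (0:ℝ)..1, g t * v k t := by
  have h1 : ∀ t, g t * psi k t = (∑ j ∈ Finset.range k, g t * v j t) - k * (g t * v k t) := by
    intro t
    unfold psi v
    rw [mul_sub, Finset.mul_sum]
    ring
  simp_rw [h1]
  rw [intervalIntegral.integral_sub, intervalIntegral.integral_finsetSum,
    intervalIntegral.integral_const_mul]
  · intro i _
    apply Continuous.intervalIntegrable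
    exact hg.mul (v_cont i)
  · apply Continuous.intervalIntegrable
    exact continuous_finsetSum _ (fun i _ => hg.mul (v_cont i))
  · apply Continuous.intervalIntegrable
    exact continuous_const.mul (hg.mul (v_cont k))

lemma int_v_psi (i k : ℕ) :
    ∫ t in (0:ℝ)..1, v i t * psi k t = if i < k then 1/2 else if i = k then -(k:ℝ)/2 else 0 := by
  rw [int_g_psi _ (v_cont i)]
  simp_rw [int_v_v]
  rw [Finset.sum_ite_eq]
  simp only [Finset.mem_range]
  split_ifs with h1 h2 <;> first | omega | ring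

lemma int_psi_psi (j k : ℕ) (h : j < k) :
    ∫ t in (0:ℝ)..1, psi j t * psi k t = 0 := by
  have h0 : ∀ t, psi j t * psi k t = psi k t * psi j t := fun t => mul_comm _ _
  simp_rw [h0]
  rw [int_g_psi _ (psi_cont k)]
  have h1 : ∀ i, ∫ t in (0:ℝ)..1, psi k t * v i t = ∫ t in (0:ℝ)..1, v i t * psi k t := by
    intro i
    congr 1; funext t; ring
  simp_rw [h1, int_v_psi]
  rw [if_pos h]
  have : ∀ i ∈ Finset.range j, (if i < k then (1/2:ℝ) else if i = k then -(k:ℝ)/2 else 0) = 1/2 := by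
    intro i hi
    rw [Finset.mem_range] at hi
    rw [if_pos (by omega)]
  rw [Finset.sum_congr rfl this]
  simp

lemma int_cos_psi (n : ℕ) (h : ∀ k, n ≠ 3 ^ k) (k : ℕ) :
    ∫ t in (0:ℝ)..1, Real.cos (n * Real.pi * t) * psi k t = 0 := by
  rw [int_g_psi _ (by fun_prop)]
  have h1 : ∀ j, ∫ t in (0:ℝ)..1, Real.cos (n * Real.pi * t) * v j t = 0 := by
    intro j
    have := int_cos_cos n (3 ^ j) (h j)
    unfold v
    push_cast at this
    exact this
  simp_rw [h1]
  simp

lemma phi_orth (m n : ℕ) (h : m ≠ n) : ∫ t in (0:ℝ)..1, phi m t * phi n t = 0 := by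
  rcases cases_n m with ⟨j, rfl⟩ | hm
  · rcases cases_n n with ⟨k, rfl⟩ | hn
    · rw [phi_pow, phi_pow]
      have hjk : j ≠ k := by rintro rfl; exact h rfl
      rcases lt_or_gt_of_ne hjk with h1 | h1
      · exact int_psi_psi _ _ (by omega)
      · have h0 : ∀ t, psi (j+1) t * psi (k+1) t = psi (k+1) t * psi (j+1) t :=
          fun t => mul_comm _ _
        simp_rw [h0]
        exact int_psi_psi _ _ (by omega)
    · rw [phi_pow]
      simp_rw [phi_of_not n hn]
      have h0 : ∀ t : ℝ, psi (j+1) t * Real.cos (n * Real.pi * t) =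
        Real.cos (n * Real.pi * t) * psi (j+1) t := fun t => mul_comm _ _
      simp_rw [h0]
      exact int_cos_psi n hn _
  · rcases cases_n n with ⟨k, rfl⟩ | hn
    · rw [phi_pow]
      simp_rw [phi_of_not m hm]
      exact int_cos_psi m hm _
    · simp_rw [phi_of_not m hm, phi_of_not n hn]
      exact int_cos_cos m n h

lemma psi_third (k : ℕ) : psi (k+1) (1/3) = 3/2 := by
  have h : ∀ j : ℕ, Real.cos (3 ^ (j+1) * Real.pi * (1/3)) = -1 := by
    intro j
    have : (3:ℝ) ^ (j+1) * Real.pi * (1/3) = ((3 ^ j : ℕ) : ℝ) * Real.pi := by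
      push_cast; ring
    rw [this, Real.cos_nat_mul_pi]
    apply Odd.neg_one_pow
    exact Odd.pow (by decide)
  unfold psi
  rw [h, Finset.sum_range_succ', Finset.sum_congr rfl (fun j _ => h j)]
  have : (3:ℝ) ^ 0 * Real.pi * (1/3) = Real.pi / 3 := by ring
  rw [this, Real.cos_pi_div_three]
  simp
  ring

lemma phi_ne (n : ℕ) : ∃ t ∈ Icc (0:ℝ) 1, phi n t ≠ 0 := by
  rcases cases_n n with ⟨k, rfl⟩ | h
  · refine ⟨1/3, by constructor <;> norm_num, ?_⟩
    rw [phi_pow, psi_third]
    norm_num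
  · refine ⟨0, by constructor <;> norm_num, ?_⟩
    rw [phi_of_not n h]
    simp

noncomputable def Phi (n : ℕ) : C(Icc (0:ℝ) 1, ℝ) :=
  ⟨fun t => phi n t, (phi_cont n).comp continuous_subtype_val⟩

def W : Submodule ℝ C(Icc (0:ℝ) 1, ℝ) := (Submodule.span ℝ (range Phi)).topologicalClosure

lemma Phi_mem (n : ℕ) : Phi n ∈ W :=
  Submodule.le_topologicalClosure _ (Submodule.subset_span ⟨n, rfl⟩)

lemma Phi_of_not (n : ℕ) (h : ∀ k, n ≠ 3 ^ k) : Phi n = e n := by
  ext t
  change phi n t = _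
  rw [phi_of_not n h, e_apply]
  simp

lemma Phi_pow (k : ℕ) : Phi (3 ^ k) = (∑ j ∈ Finset.range (k+1), u j) - ((k:ℝ)+1) • u (k+1) := by
  ext t
  change phi (3 ^ k) t = _
  rw [phi_pow]
  simp only [psi, u, ContinuousMap.sub_apply, ContinuousMap.sum_apply, ContinuousMap.smul_apply,
    e_apply, smul_eq_mul]
  push_cast
  rfl

lemma d_mem (k : ℕ) : u 0 - u k ∈ W := by
  induction k using Nat.strong_induction_on with
  | _ k ih =>
    rcases k with _ | k
    · simp
    · have h1 : u 0 - u (k+1) = (1/((k:ℝ)+1)) • (Phi (3 ^ k) +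
          ∑ j ∈ Finset.range (k+1), (u 0 - u j)) := by
        rw [Phi_pow, Finset.sum_sub_distrib]
        simp only [Finset.sum_const, Finset.card_range]
        have hk : ((k:ℝ)+1) ≠ 0 := by positivity
        rw [show (∑ j ∈ Finset.range (k + 1), u j - ((k:ℝ) + 1) • u (k + 1) +
          ((k + 1) • u 0 - ∑ x ∈ Finset.range (k + 1), u x)) =
          ((k:ℝ)+1) • (u 0 - u (k+1)) by
            rw [smul_sub, ← Nat.cast_smul_eq_nsmul ℝ]
            push_cast
            abel]
        rw [smul_smul, one_div, inv_mul_cancel₀ hk, one_smul]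
      rw [h1]
      apply Submodule.smul_mem
      apply Submodule.add_mem _ (Phi_mem _)
      apply Submodule.sum_mem
      intro j hj
      rw [Finset.mem_range] at hj
      exact ih j hj

lemma M_le_W (j : ℕ) : M j ≤ W := by
  unfold M
  rw [Submodule.span_le]
  rintro g ⟨m, _, _, hg, rfl⟩
  have h1 : e m = e (m.natAbs : ℤ) := by
    rcases Int.natAbs_eq m with h | h
    · rw [← h]
    · conv_lhs => rw [h, e_neg]
  rw [h1]
  have h2 : ∀ k, m.natAbs ≠ 3 ^ k := by
    intro k hk
    rcases Int.natAbs_eq m with h | h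
    · apply (hg k).1
      rw [h, hk]; push_cast; rfl
    · apply (hg k).2
      rw [h, hk]; push_cast; rfl
  rw [← Phi_of_not _ h2]
  exact Phi_mem _

lemma W_closed : IsClosed (W : Set C(Icc (0:ℝ) 1, ℝ)) := Submodule.isClosed_topologicalClosure _

lemma u0_approx (n : ℕ) (hn : 0 < n) : ∃ w ∈ W, ‖u 0 - w‖ ≤ Real.sqrt (Real.exp 1) / Real.sqrt n := by
  set a : ℝ := 1 / Real.sqrt n with ha
  have hn' : (0:ℝ) < n := by exact_mod_cast hn
  have hs : 0 < Real.sqrt n := Real.sqrt_pos.mpr hn'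
  have ha0 : 0 < a := by positivity
  obtain ⟨X, Y, _, hY, hb⟩ := riesz n a n 1 (by ring)
  have han : a * n = Real.sqrt n := by
    rw [ha, one_div, inv_mul_eq_div, div_eq_iff hs.ne']
    exact (Real.mul_self_sqrt hn'.le).symm
  refine ⟨u 0 - (1/(a * n)) • Y, ?_, ?_⟩
  · have h1 : u 0 - (1/(a * n)) • Y =
        (1/(n:ℝ)) • (∑ k ∈ Finset.Ico 1 (n+1), (u 0 - u k)) -
        (1/(a * n)) • (Y - a • ∑ k ∈ Finset.Ico 1 (n+1), u k) := by
      rw [Finset.sum_sub_distrib]
      simp only [Finset.sum_const, Nat.card_Ico, Nat.add_sub_cancel]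
      rw [smul_sub, smul_sub, ← Nat.cast_smul_eq_nsmul ℝ, smul_smul, smul_smul]
      have e1 : (1/(n:ℝ)) * n = 1 := by field_simp
      have e2 : (1/(a * n)) * a = 1/(n:ℝ) := by field_simp
      rw [e1, e2, one_smul]
      abel
    rw [h1]
    apply Submodule.sub_mem
    · apply Submodule.smul_mem
      apply Submodule.sum_mem
      intro k _
      exact d_mem k
    · apply Submodule.smul_mem
      exact M_le_W _ hY
  · rw [sub_sub_cancel, ContinuousMap.norm_le _ (by positivity)]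
    intro t
    simp only [ContinuousMap.smul_apply, smul_eq_mul, norm_mul, han]
    rw [Real.norm_of_nonneg (by positivity), one_div, inv_mul_eq_div]
    apply div_le_div_of_nonneg_right _ hs.le
    rw [Real.norm_eq_abs]
    apply Real.abs_le_sqrt
    have h2 := hb t
    have h3 : (1 + a ^ 2) ^ n ≤ Real.exp 1 := by
      have h4 : 1 + a ^ 2 ≤ Real.exp (a ^ 2) := by
        have := Real.add_one_le_exp (a ^ 2); linarith
      calc (1 + a ^ 2) ^ n ≤ (Real.exp (a ^ 2)) ^ n := by
            apply pow_le_pow_left₀ (by positivity) h4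
        _ = Real.exp (n * a ^ 2) := by rw [← Real.exp_nat_mul]
        _ = Real.exp 1 := by
            congr 1
            rw [ha]
            rw [div_pow, one_pow, Real.sq_sqrt hn'.le]
            field_simp
    nlinarith [sq_nonneg (X t)]

lemma u0_mem : u 0 ∈ W := by
  have h : u 0 ∈ closure (W : Set C(Icc (0:ℝ) 1, ℝ)) := by
    rw [Metric.mem_closure_iff]
    intro ε hε
    obtain ⟨n, hn⟩ := exists_nat_gt ((Real.sqrt (Real.exp 1) / ε) ^ 2)
    have hn0 : (0:ℝ) < n := lt_of_le_of_lt (by positivity) hn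
    have hn0' : 0 < n := by exact_mod_cast hn0
    obtain ⟨w, hw, hle⟩ := u0_approx n hn0'
    refine ⟨w, hw, ?_⟩
    rw [dist_eq_norm]
    apply lt_of_le_of_lt hle
    rw [div_lt_iff₀ (Real.sqrt_pos.mpr hn0)]
    have : Real.sqrt (Real.exp 1) / ε < Real.sqrt n := Real.lt_sqrt_of_sq_lt hn
    rw [div_lt_iff₀ hε] at this
    linarith
  rwa [W_closed.closure_eq] at h

lemma e_nat_mem (n : ℕ) : e n ∈ W := by
  rcases cases_n n with ⟨k, rfl⟩ | h
  · have h1 : e ((3 ^ k : ℕ) : ℤ) = u 0 - (u 0 - u k) := by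
      unfold u; push_cast; simp
    rw [h1]
    exact Submodule.sub_mem _ u0_mem (d_mem k)
  · rw [← Phi_of_not n h]; exact Phi_mem n

lemma pow_mem (k : ℕ) : (e 1) ^ k ∈ Submodule.span ℝ (range (fun n : ℕ => e n)) := by
  induction k with
  | zero =>
    rw [pow_zero, ← e_zero]
    exact Submodule.subset_span ⟨0, rfl⟩
  | succ k ih =>
    rw [pow_succ']
    generalize (e 1) ^ k = g at ih
    induction ih using Submodule.span_induction with
    | mem x hx =>
      obtain ⟨n, rfl⟩ := hx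
      simp only
      rw [e_mul]
      apply Submodule.add_mem
      · apply Submodule.smul_mem
        apply Submodule.subset_span
        exact ⟨1 + n, by push_cast; rfl⟩
      · apply Submodule.smul_mem
        apply Submodule.subset_span
        rcases n with _ | n
        · exact ⟨1, by simp⟩
        · refine ⟨n, ?_⟩
          simp only
          rw [← e_neg]
          congr 1
          push_cast; ring
    | zero => simp
    | add x y _ _ hx hy => rw [mul_add]; exact Submodule.add_mem _ hx hy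
    | smul a x _ hx =>
      rw [mul_smul_comm]
      exact Submodule.smul_mem _ _ hx

lemma W_top : W = ⊤ := by
  set A : Subalgebra ℝ C(Icc (0:ℝ) 1, ℝ) := Algebra.adjoin ℝ {e 1} with hA
  have hAW : (Subalgebra.toSubmodule A) ≤ W := by
    rw [hA, Algebra.adjoin_eq_span, Submodule.span_le]
    intro g hg
    rw [SetLike.mem_coe, Submonoid.mem_closure_singleton] at hg
    obtain ⟨k, rfl⟩ := hg
    have h1 : Submodule.span ℝ (range (fun n : ℕ => e n)) ≤ W := by
      rw [Submodule.span_le]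
      rintro g ⟨n, rfl⟩
      exact e_nat_mem n
    exact h1 (pow_mem k)
  have hsep : A.SeparatesPoints := by
    intro x y hxy
    refine ⟨e 1, ⟨e 1, Algebra.subset_adjoin rfl, rfl⟩, ?_⟩
    intro h
    apply hxy
    simp only [e_apply, Int.cast_one, one_mul] at h
    have hx : Real.pi * (x:ℝ) ∈ Icc 0 Real.pi := by
      constructor
      · exact mul_nonneg Real.pi_pos.le x.2.1
      · nlinarith [Real.pi_pos, x.2.2]
    have hy : Real.pi * (y:ℝ) ∈ Icc 0 Real.pi := by
      constructor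
      · exact mul_nonneg Real.pi_pos.le y.2.1
      · nlinarith [Real.pi_pos, y.2.2]
    have := Real.injOn_cos hx hy h
    have := mul_left_cancel₀ Real.pi_ne_zero this
    exact Subtype.ext this
  have htop := ContinuousMap.subalgebra_topologicalClosure_eq_top_of_separatesPoints A hsep
  rw [eq_top_iff]
  intro g _
  have hg : g ∈ A.topologicalClosure := by rw [htop]; trivial
  have hg' : g ∈ closure (A : Set C(Icc (0:ℝ) 1, ℝ)) := hg
  have : closure (A : Set C(Icc (0:ℝ) 1, ℝ)) ⊆ W := closure_minimal hAW W_closed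
  exact this hg'


lemma phi_closed (g : ℝ → ℝ) (hg : ContinuousOn g (Set.Icc (0:ℝ) 1)) (ε : ℝ) (hε : ε > 0) :
    ∃ s : Finset ℕ, ∃ c : ℕ → ℝ,
      ∀ t ∈ Set.Icc (0:ℝ) 1, |g t - ∑ i ∈ s, c i * phi i t| < ε := by
  set G : C(Icc (0:ℝ) 1, ℝ) := ⟨fun t => g t, hg.domRestrict⟩ with hG
  have h1 : G ∈ closure ((Submodule.span ℝ (range Phi) : Submodule ℝ _) :
      Set C(Icc (0:ℝ) 1, ℝ)) := by
    have : G ∈ W := by rw [W_top]; trivial
    exact this
  rw [Metric.mem_closure_iff] at h1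
  obtain ⟨w, hw, hd⟩ := h1 ε hε
  rw [SetLike.mem_coe, Finsupp.mem_span_range_iff_exists_finsupp] at hw
  obtain ⟨c, hc⟩ := hw
  refine ⟨c.support, c, ?_⟩
  intro t ht
  rw [dist_eq_norm] at hd
  have h2 := lt_of_le_of_lt ((G - w).norm_coe_le_norm ⟨t, ht⟩) hd
  rw [Real.norm_eq_abs] at h2
  have h3 : (G - w) ⟨t, ht⟩ = g t - ∑ i ∈ c.support, c i * phi i t := by
    rw [← hc, Finsupp.sum]
    simp only [ContinuousMap.sub_apply, ContinuousMap.sum_apply, ContinuousMap.smul_apply,
      smul_eq_mul]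
    rfl
  rwa [h3] at h2

/-- There are an orthogonal system φ of continuous functions on [0,1], none identically zero,
closed in C[0,1], and a continuous function f, such that the expansion of f in φ is not
uniformly summable to f by any real matrix. -/
theorem result :
    ∃ φ : ℕ → ℝ → ℝ,
      (∀ n, ContinuousOn (φ n) (Icc (0:ℝ) 1)) ∧
      (∀ n, ∃ t ∈ Icc (0:ℝ) 1, φ n t ≠ 0) ∧
      (∀ m n : ℕ, m ≠ n → ∫ t in (0:ℝ)..1, φ m t * φ n t = 0) ∧
      (∀ g : ℝ → ℝ, ContinuousOn g (Icc (0:ℝ) 1) → ∀ ε : ℝ, ε > 0 →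
        ∃ s : Finset ℕ, ∃ a : ℕ → ℝ,
          ∀ t ∈ Icc (0:ℝ) 1, |g t - ∑ i ∈ s, a i * φ i t| < ε) ∧
      ∃ f : ℝ → ℝ, ContinuousOn f (Icc (0:ℝ) 1) ∧
        ∀ c : ℕ → ℕ → ℝ, ¬ UniformlySummable φ c f := by
  refine ⟨phi, fun n => (phi_cont n).continuousOn, phi_ne, phi_orth, phi_closed,
    fun t => Real.cos (Real.pi * t), by fun_prop, ?_⟩
  rintro c ⟨σ, h1, h2⟩
  have hps : ∀ N, partialSum phi (fun t => Real.cos (Real.pi * t)) N 0 = 0 := by
    intro N
    unfold partialSum
    apply Finset.sum_eq_zero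
    intro i _
    rcases cases_n i with ⟨k, rfl⟩ | h
    · rw [phi_pow, psi_zero, mul_zero]
    · have h0 : coeff phi (fun t => Real.cos (Real.pi * t)) i = 0 := by
        unfold coeff
        have : ∫ t in (0:ℝ)..1, Real.cos (Real.pi * t) * phi i t = 0 := by
          simp_rw [phi_of_not i h]
          have h1 := int_cos_cos 1 i (by
            have := h 0
            simpa using Ne.symm this)
          simpa using h1
        rw [this, zero_div]
      rw [h0, zero_mul]
  have h01 : (0:ℝ) ∈ Icc (0:ℝ) 1 := by constructor <;> norm_num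
  have hσ : ∀ m, σ m 0 = 0 := by
    intro m
    have ht := (h1 m).tendsto_at h01
    simp only [hps, mul_zero, Finset.sum_const_zero] at ht
    exact tendsto_nhds_unique ht tendsto_const_nhds
  have ht := h2.tendsto_at h01
  simp only [hσ, mul_zero, Real.cos_zero] at ht
  have := tendsto_nhds_unique ht tendsto_const_nhds
  norm_num at this

end Pool.Agent.Results.MP_ae49d3_an.NoMatrixMethod
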